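import Pool.Agent.TH133.PW.CasB
import Pool.Agent.TH133.PW.Kun

/-!
# The noncommutative Künneth standard conjecture and the separation of single classes

Let `k` be a field of characteristic zero and `𝒜` a saturated dg category over `k`, the coefficients
being the rational numbers, `F = ℚ`. We use the following data of `𝒜` (`Saturated`): the algebra `Corr`
of the noncommutative correspondences from `𝒜` to itself, `K_0(𝒜^op ⊗ 𝒜)_ℚ`; the finite-dimensional
vector spaces `Plus = HP^+(𝒜)` and `Minus = HP^-(𝒜)` over `k`, on which it acts; and the Lefschetz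
formula: the supertrace of a correspondence `z` is the rational number `euler z`, the Euler
characteristic of the Hochschild homology of `𝒜` with coefficients in the bimodule `z`.

The following are equivalent:

* `C_NC(𝒜)`: the Künneth projectors are induced by noncommutative correspondences with RATIONAL
  coefficients (so that `C_NC(𝒜)` does not depend on the field `F` between `ℚ` and `k`);
* the projector onto `HP^+(𝒜)` is a `k`-linear combination of such operators;
* for every `y` in `HP^+(𝒜)` and every `y'` in `HP^-(𝒜)` there is a `k`-linear combination `φ` of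
  noncommutative correspondences, which may depend on `y` and `y'`, with `φ(y) = y` and `φ(y') = 0`;
* whenever for `y` in `HP^+(𝒜)`, `y'` in `HP^-(𝒜)` and linear forms `f`, `f'` on these spaces (classes
  in `HP^±(𝒜^op)`) `f(z y) + f'(z y') = 0` for all noncommutative correspondences `z`, then `f(y) = 0`;
* every subspace of `HP^+(𝒜) ⊕ HP^-(𝒜)` which is stable under the noncommutative correspondences is the
  sum of its even and of its odd part; that is, no non-zero subquotient of `HP^+(𝒜)` is isomorphic,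
  as a representation of the noncommutative correspondences, to a subquotient of `HP^-(𝒜)`.
-/

set_option autoImplicit false

open Module Pool.Agent.TH133.PW

universe u v

namespace Pool.Agent.Results.MP_eadf0f_ag.PointwiseParity

/-- The data of a saturated dg category `𝒜` over the field `k` of characteristic zero: the algebra of
the noncommutative correspondences from `𝒜` to itself with rational coefficients, its actions on the
even and the odd part of the periodic cyclic homology, and the Lefschetz formula for the supertraces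
(the number `euler z` is the Euler characteristic of the Hochschild homology of `𝒜` with coefficients
in `z`). -/
structure Saturated (k : Type u) [Field k] where
  /-- noncommutative correspondences: `K_0(𝒜^op ⊗ 𝒜)_ℚ` -/
  Corr : Type v
  [ring : Ring Corr]
  [algebra : Algebra ℚ Corr]
  /-- `HP^+(𝒜)` -/
  Plus : Type v
  [plusGroup : AddCommGroup Plus]
  [plusModule : Module k Plus]
  [plusFinite : FiniteDimensional k Plus]
  /-- `HP^-(𝒜)` -/
  Minus : Type v
  [minusGroup : AddCommGroup Minus]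
  [minusModule : Module k Minus]
  [minusFinite : FiniteDimensional k Minus]
  /-- the action on `HP^+(𝒜)` -/
  plus : Corr →+* End k Plus
  /-- the action on `HP^-(𝒜)` -/
  minus : Corr →+* End k Minus
  /-- the Euler characteristic of the Hochschild homology with coefficients in `z` -/
  euler : Corr → ℚ
  supertrace : ∀ z, LinearMap.trace k Plus (plus z) - LinearMap.trace k Minus (minus z) = (euler z : k)

attribute [instance] Saturated.ring Saturated.algebra Saturated.plusGroup Saturated.plusModule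
  Saturated.plusFinite Saturated.minusGroup Saturated.minusModule Saturated.minusFinite

variable {k : Type u} [Field k]

/-- the operator on `HP^+(𝒜) ⊕ HP^-(𝒜)` induced by a noncommutative correspondence -/
noncomputable def op (𝒜 : Saturated.{u, v} k) (z : 𝒜.Corr) : End k (𝒜.Plus × 𝒜.Minus) :=
  (𝒜.plus z).prodMap (𝒜.minus z)

/-- the projector onto `HP^+(𝒜)` -/
def projPlus (𝒜 : Saturated.{u, v} k) : End k (𝒜.Plus × 𝒜.Minus) := LinearMap.prodMap 1 0

/-- the projector onto `HP^-(𝒜)` -/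
def projMinus (𝒜 : Saturated.{u, v} k) : End k (𝒜.Plus × 𝒜.Minus) := LinearMap.prodMap 0 1

/-- `C_NC(𝒜)`: the Künneth projectors are induced by noncommutative correspondences with rational
coefficients. -/
def Kunneth (𝒜 : Saturated.{u, v} k) : Prop :=
  (∃ z, op 𝒜 z = projPlus 𝒜) ∧ ∃ z, op 𝒜 z = projMinus 𝒜

/-- the `k`-linear combinations of noncommutative correspondences -/
noncomputable def combinations (𝒜 : Saturated.{u, v} k) : Submodule k (End k (𝒜.Plus × 𝒜.Minus)) :=
  Submodule.span k (Set.range (op 𝒜))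

/-- the even class `y` and the odd class `y'` are separated by a combination `φ` -/
def SeparatesClasses (𝒜 : Saturated.{u, v} k) : Prop :=
  ∀ (y : 𝒜.Plus) (y' : 𝒜.Minus), ∃ φ ∈ combinations 𝒜, φ (y, 0) = (y, 0) ∧ φ (0, y') = 0

/-- pairs of classes are detected by the noncommutative correspondences -/
def DetectsClasses (𝒜 : Saturated.{u, v} k) : Prop :=
  ∀ (y : 𝒜.Plus) (y' : 𝒜.Minus) (f : 𝒜.Plus →ₗ[k] k) (f' : 𝒜.Minus →ₗ[k] k),
    (∀ z, f (𝒜.plus z y) + f' (𝒜.minus z y') = 0) → f y = 0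

/-- stable subspaces of `HP^+(𝒜) ⊕ HP^-(𝒜)` are graded -/
def StableGraded (𝒜 : Saturated.{u, v} k) : Prop :=
  ∀ N : Submodule k (𝒜.Plus × 𝒜.Minus), (∀ z, ∀ v ∈ N, op 𝒜 z v ∈ N) → ∀ v ∈ N, (v.1, 0) ∈ N

lemma op_one (𝒜 : Saturated.{u, v} k) : op 𝒜 1 = 1 := by
  rw [op, map_one, map_one]
  rfl

lemma op_mul (𝒜 : Saturated.{u, v} k) (z w : 𝒜.Corr) : op 𝒜 (z * w) = op 𝒜 z * op 𝒜 w := by
  rw [op, map_mul, map_mul]
  rfl

lemma op_add (𝒜 : Saturated.{u, v} k) (z w : 𝒜.Corr) : op 𝒜 (z + w) = op 𝒜 z + op 𝒜 w := by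
  rw [op, map_add, map_add]
  rfl

lemma op_sub (𝒜 : Saturated.{u, v} k) (z w : 𝒜.Corr) : op 𝒜 (z - w) = op 𝒜 z - op 𝒜 w := by
  rw [op, map_sub, map_sub]
  ext v <;> rfl

lemma op_smul [CharZero k] (𝒜 : Saturated.{u, v} k) (q : ℚ) (z : 𝒜.Corr) :
    op 𝒜 (q • z) = (q : k) • op 𝒜 z := by
  have h1 : 𝒜.plus (q • z) = (q : k) • 𝒜.plus z := by
    have := map_ratCast_smul 𝒜.plus ℚ k q z
    rwa [Rat.cast_id] at this
  have h2 : 𝒜.minus (q • z) = (q : k) • 𝒜.minus z := by
    have := map_ratCast_smul 𝒜.minus ℚ k q z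
    rwa [Rat.cast_id] at this
  rw [op, h1, h2]
  ext v <;> simp [op]

lemma one_mem (𝒜 : Saturated.{u, v} k) : (1 : End k (𝒜.Plus × 𝒜.Minus)) ∈ combinations 𝒜 :=
  Submodule.subset_span ⟨1, op_one 𝒜⟩

lemma mul_mem (𝒜 : Saturated.{u, v} k) {a b : End k (𝒜.Plus × 𝒜.Minus)} (ha : a ∈ combinations 𝒜)
    (hb : b ∈ combinations 𝒜) : a * b ∈ combinations 𝒜 := by
  have h := Submodule.mul_mem_mul ha hb
  rw [combinations, Submodule.span_mul_span] at h
  refine Submodule.span_mono ?_ h
  rintro _ ⟨_, ⟨z, rfl⟩, _, ⟨w, rfl⟩, rfl⟩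
  exact ⟨z * w, op_mul 𝒜 z w⟩

lemma graded (𝒜 : Saturated.{u, v} k) {a : End k (𝒜.Plus × 𝒜.Minus)} (ha : a ∈ combinations 𝒜) :
    (∀ y, (a (y, 0)).2 = 0) ∧ ∀ y', (a (0, y')).1 = 0 := by
  induction ha using Submodule.span_induction with
  | mem a ha =>
    obtain ⟨z, rfl⟩ := ha
    exact ⟨fun y => by simp [op], fun y' => by simp [op]⟩
  | zero => exact ⟨fun y => rfl, fun y' => rfl⟩
  | add a b _ _ iha ihb =>
    refine ⟨fun y => ?_, fun y' => ?_⟩
    · rw [LinearMap.add_apply, Prod.snd_add, iha.1, ihb.1, add_zero]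
    · rw [LinearMap.add_apply, Prod.fst_add, iha.2, ihb.2, add_zero]
  | smul c a _ iha =>
    refine ⟨fun y => ?_, fun y' => ?_⟩
    · rw [LinearMap.smul_apply, Prod.smul_snd, iha.1, smul_zero]
    · rw [LinearMap.smul_apply, Prod.smul_fst, iha.2, smul_zero]

lemma stable (𝒜 : Saturated.{u, v} k) {N : Submodule k (𝒜.Plus × 𝒜.Minus)}
    (hN : ∀ z, ∀ v ∈ N, op 𝒜 z v ∈ N) {a : End k (𝒜.Plus × 𝒜.Minus)}
    (ha : a ∈ combinations 𝒜) {v : 𝒜.Plus × 𝒜.Minus} (hv : v ∈ N) : a v ∈ N := by
  induction ha using Submodule.span_induction with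
  | mem a ha =>
    obtain ⟨z, rfl⟩ := ha
    exact hN z v hv
  | zero => exact N.zero_mem
  | add a b _ _ iha ihb => exact N.add_mem iha ihb
  | smul c a _ iha => exact N.smul_mem c iha

/-- from the images of the pair to the images of its members -/
lemma of_pair (𝒜 : Saturated.{u, v} k) {a : End k (𝒜.Plus × 𝒜.Minus)} (ha : a ∈ combinations 𝒜)
    {y : 𝒜.Plus} {y' : 𝒜.Minus} (h : a (y, y') = (y, 0)) :
    a (y, 0) = (y, 0) ∧ a (0, y') = 0 := by
  have e : a (y, 0) + a (0, y') = (y, 0) := by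
    rw [← map_add, Prod.mk_add_mk, add_zero, zero_add, h]
  have g := graded 𝒜 ha
  have e1 := congrArg Prod.fst e
  have e2 := congrArg Prod.snd e
  rw [Prod.fst_add, g.2, add_zero] at e1
  rw [Prod.snd_add, g.1, zero_add] at e2
  exact ⟨Prod.ext e1 (g.1 y), Prod.ext (g.2 y') e2⟩

/-- the images of the pair `(y, y')` -/
noncomputable def orbit (𝒜 : Saturated.{u, v} k) (v : 𝒜.Plus × 𝒜.Minus) :
    Submodule k (𝒜.Plus × 𝒜.Minus) :=
  (combinations 𝒜).map (LinearMap.applyₗ (R := k) v)

lemma mem_orbit (𝒜 : Saturated.{u, v} k) {v w : 𝒜.Plus × 𝒜.Minus} :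
    w ∈ orbit 𝒜 v ↔ ∃ a ∈ combinations 𝒜, a v = w := Iff.rfl

theorem projPlus_mem_of_separates (𝒜 : Saturated.{u, v} k) (h : SeparatesClasses 𝒜) :
    projPlus 𝒜 ∈ combinations 𝒜 := by
  obtain ⟨c, hc, h0, h1⟩ := separate_two (A := combinations 𝒜)
    (U := Submodule.prod ⊤ ⊥) (U' := Submodule.prod ⊥ ⊤) (one_mem 𝒜)
    (fun a ha b hb => mul_mem 𝒜 ha hb) (IsNoetherian.noetherian _) (IsNoetherian.noetherian _)
    (by
      rintro b hb ⟨y, y'⟩ ⟨-, hy⟩
      obtain rfl : y' = 0 := hy
      exact ⟨trivial, (graded 𝒜 hb).1 y⟩)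
    (by
      rintro b hb ⟨y, y'⟩ ⟨hy, -⟩
      obtain rfl : y = 0 := hy
      exact ⟨(graded 𝒜 hb).2 y', trivial⟩)
    (by
      rintro ⟨y, y₀⟩ ⟨-, hy⟩ ⟨y₁, y'⟩ ⟨hy', -⟩
      obtain rfl : y₀ = 0 := hy
      obtain rfl : y₁ = 0 := hy'
      exact h y y')
  have e : projPlus 𝒜 = 1 - c := by
    apply LinearMap.ext
    rintro ⟨y, y'⟩
    have hy : c (y, 0) = 0 := h0 (y, 0) ⟨trivial, rfl⟩
    have hy' : c (0, y') = (0, y') := h1 (0, y') ⟨rfl, trivial⟩
    have ev : c (y, y') = (0, y') := by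
      have : ((y, y') : 𝒜.Plus × 𝒜.Minus) = (y, 0) + (0, y') := by ext <;> simp
      rw [this, map_add, hy, hy', zero_add]
    rw [LinearMap.sub_apply, ev, Module.End.one_apply]
    simp [projPlus]
  rw [e]
  exact Submodule.sub_mem _ (one_mem 𝒜) hc

/-- descent from linear combinations to rational correspondences -/
theorem kunneth_of_mem [CharZero k] (𝒜 : Saturated.{u, v} k) (h : projPlus 𝒜 ∈ combinations 𝒜) :
    Kunneth 𝒜 := by
  let S : Subalgebra k (End k (𝒜.Plus × 𝒜.Minus)) :=
    (combinations 𝒜).toSubalgebra (one_mem 𝒜) (fun _ _ ha hb => mul_mem 𝒜 ha hb)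
  let A : Set S := {x | ∃ z, (x : End k (𝒜.Plus × 𝒜.Minus)) = op 𝒜 z}
  let p : S := ⟨projPlus 𝒜, h⟩
  have hcomm : ∀ a ∈ combinations 𝒜, projPlus 𝒜 * a = a * projPlus 𝒜 := by
    intro a ha
    apply LinearMap.ext
    rintro ⟨y, y'⟩
    have g := graded 𝒜 ha
    have ev : a (y, y') = a (y, 0) + a (0, y') := by
      rw [← map_add]
      congr 1
      ext <;> simp
    rw [Module.End.mul_apply, Module.End.mul_apply, ev]
    have e1 : projPlus 𝒜 (y, y') = (y, 0) := by simp [projPlus]
    rw [e1]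
    apply Prod.ext
    · simp [projPlus, g.2 y']
    · simp [projPlus, g.1 y]
  have hpA : p ∈ A := by
    refine central_idem_mem (A := A) (K := k) (V := 𝒜.Plus × 𝒜.Minus) (S := S) ?_ ?_ ?_ ?_ ?_
      S.val Subtype.val_injective ?_ ?_ ?_
    · exact ⟨1, (op_one 𝒜).symm⟩
    · rintro x ⟨z, hz⟩ y ⟨w, hw⟩
      exact ⟨z + w, by rw [op_add, ← hz, ← hw]; rfl⟩
    · rintro q x ⟨z, hz⟩
      exact ⟨q • z, by rw [op_smul, ← hz]; rfl⟩
    · rintro x ⟨z, hz⟩ y ⟨w, hw⟩
      exact ⟨z * w, by rw [op_mul, ← hz, ← hw]; rfl⟩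
    · rw [eq_top_iff]
      rintro ⟨x, hx⟩ -
      have key : ∀ x (hx : x ∈ combinations 𝒜), (⟨x, hx⟩ : S) ∈ Submodule.span k A := by
        intro x hx
        induction hx using Submodule.span_induction with
        | mem a ha =>
          obtain ⟨z, rfl⟩ := ha
          exact Submodule.subset_span ⟨z, rfl⟩
        | zero => exact Submodule.zero_mem _
        | add a b ha hb iha ihb => exact Submodule.add_mem _ iha ihb
        | smul c a ha iha => exact Submodule.smul_mem _ c iha
      exact key x hx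
    · apply Subtype.ext
      change projPlus 𝒜 * projPlus 𝒜 = projPlus 𝒜
      apply LinearMap.ext
      rintro ⟨y, y'⟩
      simp [projPlus]
    · intro x
      exact Subtype.ext (hcomm x.1 x.2)
    · rintro x ⟨z, hz⟩
      refine ⟨𝒜.euler z, ?_⟩
      have e1 : S.val (p * x) = (𝒜.plus z).prodMap 0 := by
        change projPlus 𝒜 * x.1 = _
        rw [hz]
        apply LinearMap.ext
        rintro ⟨y, y'⟩
        simp [projPlus, op]
      have e2 : S.val ((1 - p) * x) = (0 : End k 𝒜.Plus).prodMap (𝒜.minus z) := by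
        change (1 - projPlus 𝒜) * x.1 = _
        rw [hz]
        apply LinearMap.ext
        rintro ⟨y, y'⟩
        simp [projPlus, op]
      rw [e1, e2, LinearMap.trace_prodMap', LinearMap.trace_prodMap', map_zero, map_zero, add_zero,
        zero_add, 𝒜.supertrace]
  obtain ⟨z, hz⟩ := hpA
  have hz' : op 𝒜 z = projPlus 𝒜 := hz.symm
  refine ⟨⟨z, hz'⟩, 1 - z, ?_⟩
  rw [op_sub, op_one, hz']
  apply LinearMap.ext
  rintro ⟨y, y'⟩
  rw [LinearMap.sub_apply, Module.End.one_apply]
  simp [projPlus, projMinus]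

/-- **The noncommutative Künneth standard conjecture from the separation of single classes.** -/
theorem result {k : Type u} [Field k] [CharZero k] (𝒜 : Saturated.{u, v} k) :
    [Kunneth 𝒜, projPlus 𝒜 ∈ combinations 𝒜, SeparatesClasses 𝒜, DetectsClasses 𝒜,
      StableGraded 𝒜].TFAE := by
  tfae_have 1 → 2 := by
    rintro ⟨⟨z, hz⟩, -⟩
    rw [← hz]
    exact Submodule.subset_span ⟨z, rfl⟩
  tfae_have 2 → 1 := kunneth_of_mem 𝒜
  tfae_have 3 → 2 := projPlus_mem_of_separates 𝒜
  tfae_have 2 → 5 := by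
    intro h N hN v hv
    have := stable 𝒜 hN h hv
    simpa [projPlus] using this
  tfae_have 5 → 3 := by
    intro h y y'
    have hN : ∀ z, ∀ v ∈ orbit 𝒜 (y, y'), op 𝒜 z v ∈ orbit 𝒜 (y, y') := by
      rintro z _ ⟨a, ha, rfl⟩
      exact ⟨op 𝒜 z * a, mul_mem 𝒜 (Submodule.subset_span ⟨z, rfl⟩) ha, rfl⟩
    obtain ⟨a, ha, e⟩ := h _ hN (y, y') ⟨1, one_mem 𝒜, rfl⟩
    exact ⟨a, ha, of_pair 𝒜 ha e⟩
  tfae_have 3 → 4 := by
    intro h y y' f f' hf
    obtain ⟨a, ha, h1, h2⟩ := h y y'
    have key : ∀ a ∈ combinations 𝒜, f (a (y, 0)).1 + f' (a (0, y')).2 = 0 := by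
      intro a ha
      induction ha using Submodule.span_induction with
      | mem a ha =>
        obtain ⟨z, rfl⟩ := ha
        exact hf z
      | zero => simp
      | add a b _ _ iha ihb =>
        rw [LinearMap.add_apply, LinearMap.add_apply, Prod.fst_add, Prod.snd_add, map_add, map_add,
          add_add_add_comm, iha, ihb, add_zero]
      | smul c a _ iha =>
        rw [LinearMap.smul_apply, LinearMap.smul_apply, Prod.smul_fst, Prod.smul_snd, map_smul,
          map_smul, ← smul_add, iha, smul_zero]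
    have := key a ha
    rw [h1, h2] at this
    simpa using this
  tfae_have 4 → 3 := by
    intro h y y'
    by_contra hne
    have hnot : ((y, 0) : 𝒜.Plus × 𝒜.Minus) ∉ orbit 𝒜 (y, y') := by
      rintro ⟨a, ha, e⟩
      exact hne ⟨a, ha, of_pair 𝒜 ha e⟩
    obtain ⟨g, hg, hle⟩ := Submodule.exists_le_ker_of_notMem hnot
    apply hg
    have := h y y' (g ∘ₗ LinearMap.inl k 𝒜.Plus 𝒜.Minus) (g ∘ₗ LinearMap.inr k 𝒜.Plus 𝒜.Minus)
      (by
        intro z
        have h1 : op 𝒜 z (y, y') ∈ orbit 𝒜 (y, y') :=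
          ⟨op 𝒜 z, Submodule.subset_span ⟨z, rfl⟩, rfl⟩
        have h2 : g (op 𝒜 z (y, y')) = 0 := hle h1
        rw [LinearMap.comp_apply, LinearMap.comp_apply, ← map_add, ← h2]
        congr 1
        ext <;> simp [op])
    simpa using this
  tfae_finish

end Pool.Agent.Results.MP_eadf0f_ag.PointwiseParity
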